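import Pool.Agent.Lib.HN.SDefs
import Pool.Agent.Lib.HS76.Pull

/-! The Kodaira dimension does not decrease from the target to the source of a generically finite
map. -/

open scoped Topology Manifold ContDiff
open Set Filter

noncomputable section

namespace Pool.Agent.Lib.HN33

open Pool.Agent.Lib.SV Pool.Agent.Lib.HS76 Pool.Agent.Lib.HN

variable {n : ℕ} {X Y : Type} [TopologicalSpace X] [ChartedSpace (E n) X]
  [IsManifold 𝓘(ℂ, E n) ω X] [TopologicalSpace Y] [ChartedSpace (E n) Y]
  [IsManifold 𝓘(ℂ, E n) ω Y]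

theorem jac_ne {y : Y} {z : E n} (hz : z ∈ (chartAt (E n) y).target) : jacAt n Y y z ≠ 0 := by
  have hy := mem_chart_source (E n) ((chartAt (E n) y).symm z)
  have h := (det_comp (φ := id) (z := z)
    (g := chartAt (E n) y ∘ (chartAt (E n) ((chartAt (E n) y).symm z)).symm)
    (h := chartAt (E n) ((chartAt (E n) y).symm z) ∘ (chartAt (E n) y).symm) (by
      filter_upwards [ev_src hz (p := fun a => a ∈ (chartAt (E n) _).source)
        ((chartAt (E n) _).open_source.mem_nhds hy)] with w hw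
      simp only [Function.comp, id, (chartAt (E n) _).left_inv hw.2,
        (chartAt (E n) y).right_inv hw.1])
    (chart_diff ((chartAt (E n) _).map_source hy) (by
      rw [Function.comp, (chartAt (E n) _).left_inv hy]
      exact (chartAt (E n) y).map_target hz)) (chart_diff hz hy)).2
  intro h0
  rw [fderiv_id, show (fderiv ℂ (chartAt (E n) ((chartAt (E n) y).symm z) ∘
    (chartAt (E n) y).symm) z).det = 0 from h0, mul_zero] at h
  exact one_ne_zero ((LinearMap.det_id (A := ℂ) (M := E n)).symm.trans h)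

omit [IsManifold 𝓘(ℂ, E n) ω Y] in
theorem ev_back {y : Y} {p : Y → Prop}
    (h : ∀ᶠ w in 𝓝 (chartAt (E n) y y), p ((chartAt (E n) y).symm w)) : ∀ᶠ a in 𝓝 y, p a := by
  have hy := mem_chart_source (E n) y
  filter_upwards [((chartAt (E n) y).continuousAt hy).eventually h,
    (chartAt (E n) y).open_source.mem_nhds hy] with a h1 h2
  rwa [(chartAt (E n) y).left_inv h2] at h1

/-- The identity theorem for pluricanonical forms. -/
theorem ident [ConnectedSpace Y] {m : ℕ} {t : Y → ℂ} (ht : t ∈ Pluri n Y m) {y0 : Y}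
    (h0 : ∀ᶠ a in 𝓝 y0, t a = 0) : t = 0 := by
  have h1 : (univ : Set Y) ⊆ {y | ∀ᶠ a in 𝓝 y, t a = 0} := by
    refine isPreconnected_univ.subset_of_closure_inter_subset isOpen_setOfPred_eventually_nhds
      ⟨y0, mem_univ _, h0⟩ ?_
    rintro y ⟨hy, -⟩
    have hys := mem_chart_source (E n) y
    have hT := (chartAt (E n) y).open_target.mem_nhds (mem_chart_target (E n) y)
    have h2 : loc m t y =ᶠ[𝓝 (chartAt (E n) y y)] 0 := by
      refine H85.eventually_zero_of_frequently ?_ ?_
      · filter_upwards [hT] with w hw using loc_diff hw (ht _)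
      · refine ((chartAt (E n) y).continuousAt hys).tendsto.frequently ?_
        refine ((mem_closure_iff_frequently.1 hy).and_eventually
          ((chartAt (E n) y).open_source.mem_nhds hys)).mono fun a ha => ?_
        filter_upwards [ev_src ((chartAt (E n) y).map_source ha.2) (p := fun b => t b = 0)
          (by rw [(chartAt (E n) y).left_inv ha.2]; exact ha.1)] with w hw
        simp only [loc, hw.2, zero_mul, Pi.zero_apply]
    refine ev_back (n := n) ?_
    filter_upwards [h2, hT] with w hw hw'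
    exact (mul_eq_zero.1 hw).resolve_right (pow_ne_zero m (jac_ne hw'))
  exact funext fun y => (h1 (mem_univ y)).self_of_nhds

/-- The pull-back of pluricanonical forms is injective. -/
theorem pull_inj [ConnectedSpace Y] {Z : Set X} (hZ : IsClosed Z) {f : X → Y}
    (hf : ∀ x ∉ Z, HolAt n f x) (h0 : ∃ x ∉ Z, jacOf n f x ≠ 0) {m : ℕ} {t : Y → ℂ}
    (ht : t ∈ Pluri n Y m) (e : ∀ x ∉ Z, t (f x) * jacOf n f x ^ m = 0) : t = 0 := by
  obtain ⟨x, hx, hj⟩ := h0
  have hx0 := mem_chart_target (E n) x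
  have hxs := (chartAt (E n) x).left_inv (mem_chart_source (E n) x)
  have hev := ev_src hx0 (p := fun a => a ∉ Z ∧ f a ∈ (chartAt (E n) (f x)).source) (by
    rw [hxs]
    exact (show ∀ᶠ a in 𝓝 x, a ∉ Z from hZ.isOpen_compl.mem_nhds hx).and
      ((hf x hx).1.eventually ((chartAt (E n) (f x)).open_source.mem_nhds (mem_chart_source _ _))))
  have h1 := hev.mono fun w hw => pull_at hw.1 (hf _ hw.2.1) hw.2.2
  have hd := h1.mono fun w hw => hw.1
  have h2 := (det_diff hd).continuousAt.eventually_ne hj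
  have h3 := (H85.contDiffAt_nat hd 1).hasStrictFDerivAt one_ne_zero
  have h4 := h3.map_nhds_eq_of_surj (LinearMap.range_eq_top.2
    ((LinearMap.isUnit_iff_range_eq_top _).1 ((LinearMap.isUnit_iff_isUnit_det _).2 hj.isUnit) |>
      LinearMap.range_eq_top.1))
  have h5 : inCharts n f x (chartAt (E n) x x) = chartAt (E n) (f x) (f x) := by
    simp only [inCharts, Function.comp, hxs]
  refine ident ht (y0 := f x) (ev_back (n := n) ?_)
  rw [← h5, ← h4, eventually_map]
  filter_upwards [hev, h1, h2] with w hw hw1 hw2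
  have e0 : (chartAt (E n) (f x)).symm (inCharts n f x w) = f ((chartAt (E n) x).symm w) :=
    (chartAt (E n) (f x)).left_inv hw.2.2
  rw [e0]
  refine (mul_eq_zero.1 (e _ hw.2.1)).resolve_right (pow_ne_zero m fun h => ?_)
  have := hw1.2
  rw [h, zero_mul] at this
  exact mul_ne_zero (jac_ne ((chartAt (E n) (f x)).map_source hw.2.2)) hw2 this.symm

/-- Independent pluricanonical forms pull back to independent pluricanonical forms. -/
theorem many_pull [ConnectedSpace Y] {Z : Set X} (hZ : Thin n Z) {f : X → Y}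
    (hf : ∀ x ∉ Z, HolAt n f x) (h0 : ∃ x ∉ Z, jacOf n f x ≠ 0) {m N : ℕ} {t : Fin N → Y → ℂ}
    (hl : LinearIndependent ℂ t) (ht : ∀ i, t i ∈ Pluri n Y m) :
    ∃ s : Fin N → X → ℂ, LinearIndependent ℂ s ∧ ∀ i, s i ∈ Pluri n X m := by
  choose s hs e using fun i => pull hZ hf (ht i)
  refine ⟨s, Fintype.linearIndependent_iff.2 fun g hg => Fintype.linearIndependent_iff.1 hl g
    (pull_inj hZ.1 hf h0 (Submodule.sum_mem _ fun i _ => Submodule.smul_mem _ _ (ht i))
      fun x hx => ?_), hs⟩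
  have := congrFun hg x
  simp only [Finset.sum_apply, Pi.smul_apply, smul_eq_mul, Pi.zero_apply, e _ x hx] at this ⊢
  rw [← this, Finset.sum_mul]
  exact Finset.sum_congr rfl fun i _ => mul_assoc _ _ _

/-- The Kodaira dimension of the source is at least that of the target. -/
theorem kod_pull [ConnectedSpace Y] {Z : Set X} (hZ : Thin n Z) {f : X → Y}
    (hf : ∀ x ∉ Z, HolAt n f x) (h0 : ∃ x ∉ Z, jacOf n f x ≠ 0) {d : ℕ} (h : KodGe n Y d) :
    KodGe n X d := by
  obtain ⟨m, c, hm, hc, h⟩ := h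
  refine ⟨m, c, hm, hc, h.mono ?_⟩
  rintro a ⟨N, t, hN, hl, ht⟩
  obtain ⟨s, h1, h2⟩ := many_pull hZ hf h0 hl ht
  exact ⟨N, s, hN, h1, h2⟩

omit [IsManifold 𝓘(ℂ, E n) ω X] in
/-- A lower bound for the Kodaira dimension gives a non-zero pluricanonical form. -/
theorem nonvan_of {d : ℕ} (h : KodGe n X d) : ∃ m : ℕ, 0 < m ∧ ∃ s ∈ Pluri n X m, s ≠ 0 := by
  obtain ⟨m, c, hm, hc, h⟩ := h
  obtain ⟨a, ⟨N, s, hN, hl, hs⟩, ha⟩ := (h.and (eventually_gt_atTop 0)).exists
  have h1 : 0 < N := by exact_mod_cast (by positivity : 0 < c * (a : ℝ) ^ d).trans_le hN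
  exact ⟨m * a, Nat.mul_pos hm ha, s ⟨0, h1⟩, hs _, hl.ne_zero _⟩

end Pool.Agent.Lib.HN33
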