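import Pool.Agent.Lib.HN.Main
import Pool.Agent.Lib.HN33.Pull
import Pool.Agent.Lib.PN.Blue

/-! Projective manifolds with a Hermitian metric of non-positive holomorphic sectional curvature. -/

open scoped Classical Topology ContDiff ComplexOrder Matrix Manifold
open Set Complex Filter

noncomputable section

namespace Pool.Agent.Lib.HN33

open Pool.Agent.Lib.SV (E Pluri)
open Pool.Agent.Lib.HS32 Pool.Agent.Lib.GH Pool.Agent.Lib.HS.BBR Pool.Agent.Lib.RB.R32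
open Pool.Agent.Lib.HW Pool.Agent.Lib.HN Pool.Agent.Lib.HN.B81

theorem proj_of (hBR : PN.St_BR) (hM : PN.St_MAIN)
    (n : ℕ) (X : Type) [TopologicalSpace X] [ChartedSpace (E n) X] [IsManifold 𝓘(ℂ, E n) ω X]
    [CompactSpace X] [T2Space X] [ConnectedSpace X] (hX : PN.Projective n X) (h : X → Mat n)
    (hh : Hermitian h) (hc : ∀ x v, curvAt h x v v ≤ 0) :
    ∃ k ≤ n, FlatDirs h k ∧ KodGe n X (n - k) := by
  let M : Mf n := mf n X
  have : M.Cpt := ⟨‹T2Space X›, ‹CompactSpace X›, ‹ConnectedSpace X›⟩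
  rcases Nat.eq_zero_or_pos n with rfl | hn
  · obtain ⟨a, ha, h1⟩ := big_zero M
    refine ⟨0, le_rfl, fun x => ⟨⊥, finrank_bot _ _, fun v hv a w => ?_⟩,
      kod ⟨1, a, one_pos, ha, by simpa only [one_mul] using h1⟩⟩
    rw [(Submodule.mem_bot _).1 hv, add_zero, add_zero]
    exact ⟨rfl, rfl⟩
  let c : M.X → M.Ch := chartAt (M := X) (E n)
  have hm : ∀ x, c x ∈ M.C := ch_mem (X := X)
  have hs : ∀ x, x ∈ (c x).source := mem_chart_source (M := X) (E n)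
  have hk : M.Met (fam h) := (fam_ok hh).1
  have e1 : ∀ x a v, curvAt h x a v = (rm (fam h (c x)) (c x x) a a v v).re := fun x a v =>
    congrArg Complex.re (rm_curv (hk.sm.at (hm x) (hs x)) (hk.det_ne.at (hm x) (hs x)) a v).symm
  have hsc : M.Hsc (fam h) :=
    hsc_of hk fun x => ⟨c x, hm x, hs x, fun v => (e1 x v v).symm.trans_le (hc x v)⟩
  obtain ⟨ρ, r, e, G, f, hP⟩ := hBR n X hX
  obtain ⟨hH, hK⟩ := hM ρ n e M _ G f _ hP hk hsc
  have hN : M.NefB (PN.fs M f) 0 := fun ε hε => by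
    obtain ⟨w, w1, w2⟩ := hK ε hε
    refine ⟨w, w1, ?_⟩
    rw [W86.gB_zero]
    exact ⟨((hH.toClo.smul ε).sub ((mHES n M).2.2.2.2.2.2.2.2.1 _ hH.toMet)).add
      ((mHES n M).1 w w1), w2⟩
  obtain ⟨P, k, hP, hv⟩ := fl1 M hn hH hN hk hsc
  refine ⟨k, hP.le, fun x => ?_, kod (TQ.tail_cv (TQ.st_VZ HS.asAUBIN (TQ.st_CMP TQ.st_MAX))
    n M _ _ P k hn hH hK hN hk hP hv)⟩
  have hz := (c x).map_source (hs x)
  refine ⟨LinearMap.range (Matrix.toLin' (P (c x) (c x x))),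
    rank_eq _ _ (hP.idem _ (hm x) _ hz) fun s => hP.det s _ (hm x) _ hz, ?_⟩
  rintro _ ⟨u, rfl⟩ a w
  have := rm_flat (HS68.met_loc hk (hm x) hz) (hP.en.sm _ (hm x) _ hz) (hP.hol _ (hm x) _ hz)
    (Mf.AllOn.ev hP.t2 (hm x) hz) (hP.herm _ (hm x) _ hz) (hP.flat _ (hm x) _ hz)
    (hP.flat' _ (hm x) _ hz) u a w
  rw [e1, e1, e1, Matrix.toLin'_apply, this.1, this.2]
  exact ⟨rfl, rfl⟩

open HS76 in
theorem target_of (hBR : PN.St_BR) (hM : PN.St_MAIN)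
    (n : ℕ) (X Y : Type) [TopologicalSpace X] [ChartedSpace (E n) X] [IsManifold 𝓘(ℂ, E n) ω X]
    [TopologicalSpace Y] [ChartedSpace (E n) Y] [IsManifold 𝓘(ℂ, E n) ω Y] [CompactSpace Y]
    [T2Space Y] [ConnectedSpace Y] (hY : PN.Projective n Y) (h : Y → Mat n) (hh : Hermitian h)
    (hc : ∀ y v, curvAt h y v v ≤ 0) (Z : Set X) (hZ : Thin n Z) (f : X → Y)
    (hf : ∀ x ∉ Z, HolAt n f x) (h0 : ∃ x ∉ Z, jacOf n f x ≠ 0) :
    ∃ m : ℕ, 0 < m ∧ ∃ s ∈ Pluri n X m, s ≠ 0 :=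
  (proj_of hBR hM n Y hY h hh hc).elim fun _ H => nonvan_of (kod_pull hZ hf h0 H.2.2)

end Pool.Agent.Lib.HN33
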